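import Pool.Agent.X281.SE.Ext2

/-!
# 100% of all superelliptic curves have no sections over all extensions of degree prime to `D`

Let `k` be any field finitely generated over `ℚ`, that is, the fraction field of a domain `R` of
characteristic zero that is finitely generated as a ring.  Let `d ≥ 3`, and for
`(a, c₀, …, c_d) ∈ R^(d+2)` consider the curves

  `a^m yⁿ = c₀ + c₁ x + … + c_d x^d`,

where all coefficients vary.  We prove that for all vectors `(a, c₀, …, c_d)` outside a set of density
zero the following holds for ALL `D ≥ 1` such that `gcd(2, D) D` divides `d`, all finite extensions `L` of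
`k` and all integers `m` such that `D` does not divide `m [L : k]`, and all `n` divisible by `D`: the curve
has no point over `L`, and its fundamental group over `L` has no section, also when any set of closed
points of the curve is removed; the same is true for all smooth curves (or varieties) over `L` that
dominate the curve.

So 100% of these curves satisfy the section conjecture over all these extensions `L` at once, without
points and sections.  For instance let `g ≥ 1` be odd.  Then 100% of the hyperelliptic curves
`a y² = c₀ + … + c_(2g+2) x^(2g+2)` of genus `g` over `k` have no section over any extension of `k` of odd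
degree (`D = 2`, `d = 2g + 2` is divisible by 4).  If `ℓ` is an odd prime number and `ℓ ∣ d`, then 100% of
the curves `a y^ℓ = c₀ + … + c_d x^d` have no section over any extension of `k` of a degree prime to `ℓ`.
The set of the exceptional vectors has density zero in a strong sense: for every `ε > 0` there is an
ideal `I` of `R` of finite index such that the exceptional vectors lie in at most `ε #(R/I)^(d+2)`
residue classes modulo `I`.

In `MP_e66f84_ag.SuperellipticFamilies` only the sections over `k` itself are considered.

The fundamental group is described through valuations.  Let `U` be a smooth geometrically connected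
curve over `k` with function field `F`, let `Ω` be an algebraic closure of `F`, and let `F_U` be the
maximal extension of `F` inside `Ω` which is unramified over the closed points of `U`, that is, over
their local rings, which are valuation rings of `F`.  Then `π₁(U) = Gal(F_U/F)`, and the map
`π₁(U) → G_k` is the restriction of automorphisms to the algebraic closure of `k` in `Ω`.

Proof.  As in `MP_e66f84_ag.SuperellipticFamilies` for almost all vectors there is a discrete valuation
ring of `k` with finite residue field at which `a` is a uniformiser or the inverse of one and the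
reduction of `f = c₀ + … + c_d x^d` is irreducible of degree `d`: it comes from an embedding of `k` in a
completion `L_v` of a number field, given by Hilbert's irreducibility theorem and Newton's lemma.  Let
`l` be a prime number with `v_l(m [L : k]) < v_l(D)`.  There is a discrete valuation ring of `L` above it
with `v_l(e f) ≤ v_l([L : k])` for its ramification index `e` and residue degree `f`; put
`ℓ = l^(1 + v_l(e m))`, a divisor of `D`.  Then the valuation `± e m` of `a^m` is not divisible by `ℓ`, and the
irreducible factors of the polynomial over the residue field have degrees divisible by `gcd(2, ℓ) ℓ`.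
Now the local theorem of `MP_8312c9_nt.FactorDegrees` applies.
-/

open Polynomial

namespace Pool.Agent.Results.MP_e66f84_ag.AllCurvesOverExtensions

universe u v w y

section definitions

variable (k : Type u) (F : Type v) (Ω : Type w) [Field k] [Field F] [Field Ω] [Algebra k F]
  [Algebra F Ω] [Algebra k Ω]

/-- The inertia group of the valuation ring `W` of `Ω`, as a subgroup of `Gal(Ω/F)`: the
automorphisms of `Ω` over `F` that map `W` onto itself and act as the identity on its residue
field. -/
noncomputable def inertia (W : ValuationSubring Ω) : Subgroup (Ω ≃ₐ[F] Ω) :=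
  (W.inertiaSubgroup F).map (W.decompositionSubgroup F).subtype

/-- `F_U`, for a set `U` of valuation rings of `F`: the elements of `Ω` fixed by the inertia groups
of all valuation rings `W` of `Ω` with `W ∩ F ∈ U`.  If `Ω` is an algebraic closure of a field `F`
of characteristic zero, this is the maximal extension of `F` in `Ω` unramified over `U`. -/
noncomputable def unramified (U : Set (ValuationSubring F)) : IntermediateField F Ω :=
  ⨅ W : {W : ValuationSubring Ω // W.comap (algebraMap F Ω) ∈ U},
    IntermediateField.fixedField (inertia F Ω W.1)

/-- The map `τ : M → M` acts as `σ : K → K` on the elements that the fields `K` and `M` have in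
common when they are regarded as subfields of `Ω` through `i` and `j`. -/
def ActsAs {K M Ω : Type*} [Field K] [Field M] [Field Ω] (i : K →+* Ω) (j : M →+* Ω) (σ : K → K)
    (τ : M → M) : Prop :=
  ∀ c z, j z = i c → j (τ z) = i (σ c)

/-- Let `k ⊆ K ⊆ Ω` and `F ⊆ M ⊆ Ω` be fields.  A splitting of `Gal(M/F) → Gal(K/k)`: a continuous
homomorphism `s` from `Gal(K/k)` to `Gal(M/F)` such that `s(σ)` acts as `σ` on the elements of
`K ∩ M`. -/
structure Splitting (K M : Type*) [Field K] [Field M] [Algebra k K] [Algebra F M] [Algebra K Ω]
    [Algebra M Ω] where
  /-- the homomorphism `Gal(K/k) → Gal(M/F)` -/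
  toHom : (K ≃ₐ[k] K) →* (M ≃ₐ[F] M)
  cont : Continuous toHom
  compat : ∀ σ : K ≃ₐ[k] K, ActsAs (algebraMap K Ω) (algebraMap M Ω) σ (toHom σ)

/-- The sections of `π₁(U) = Gal(F_U/F) → G_k`: the continuous homomorphisms `s` from
`G_k = Gal(k̄/k)` to `Gal(F_U/F)`, where `k̄` is the algebraic closure of `k` in `Ω`, such that
`s(σ)` acts as `σ` on the elements of `k̄`. -/
def GaloisSection (U : Set (ValuationSubring F)) : Type w :=
  Splitting k F Ω (algebraicClosure k Ω) (unramified F Ω U)

end definitions

/-- The smooth projective curve with the affine equation `a yⁿ = f(x)` has no point over `k`: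
neither in the affine part nor at infinity. -/
def NoPoint {k : Type u} [Field k] (n : ℕ) (a : k) (f : k[X]) : Prop :=
  (¬ ∃ x y : k, a * y ^ n = f.eval x) ∧
    ¬ ∃ r : k, a * r ^ Nat.gcd n f.natDegree = f.leadingCoeff

/-- Let `F` be any field over `k` that contains a point `(x, y)` of the curve `a yⁿ = f(x)`, for
instance the function field of the curve, and let `Ω` be an algebraic closure of `F`.  Then for
every set `U` of valuation rings of `F` over `k` there is no section of `π₁(U) → G_k`.  If `F` is the
function field of the curve, such `U` are given by the smooth projective curve and by all its open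
subcurves. -/
def NoSection {k : Type u} [Field k] (n : ℕ) (a : k) (f : k[X]) : Prop :=
  ∀ (F : Type v) (Ω : Type w) [Field F] [Field Ω] [Algebra k F] [Algebra F Ω] [Algebra k Ω]
    [IsScalarTower k F Ω] [IsAlgClosure F Ω] (x y : F) (U : Set (ValuationSubring F)),
    algebraMap k F a * y ^ n = aeval x f → (∀ O ∈ U, ∀ c : k, algebraMap k F c ∈ O) →
      IsEmpty (GaloisSection k F Ω U)

/-- The polynomial `c₁ + c₂ x + … + c_{d+1} x^d` over `k`, for a vector `(c₀, …, c_{d+1})` of elements
of `R`. -/
noncomputable def poly {R : Type} [CommRing R] (k : Type) [Field k] [Algebra R k] {d : ℕ}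
    (c : Fin (d + 2) → R) : k[X] :=
  ∑ i : Fin (d + 1), C (algebraMap R k (c i.succ)) * X ^ (i : ℕ)

/-- For all `D ≥ 1` such that `gcd(2, D) D` divides the degree of `p`, all finite extensions `L` of `k` and
integers `m` such that `D` does not divide `m [L : k]`, and all `n` divisible by `D`, the curve
`a^m yⁿ = p(x)` has neither points nor sections over `L`. -/
def Nothing {k : Type} [Field k] (a : k) (p : k[X]) : Prop :=
  ∀ D : ℕ, 1 ≤ D → Nat.gcd 2 D * D ∣ p.natDegree →
  ∀ (L : Type y) [Field L] [Algebra k L] [FiniteDimensional k L] (m : ℤ),
    ¬ (D : ℤ) ∣ m * (Module.finrank k L : ℤ) → ∀ n : ℕ, D ∣ n →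
      NoPoint n (algebraMap k L (a ^ m)) (p.map (algebraMap k L)) ∧
      NoSection.{y, v, w} n (algebraMap k L (a ^ m)) (p.map (algebraMap k L))

/-- The vectors `c = (a, c₀, …, c_d)` of elements of `R` that do not have the following property:
`a ≠ 0`, the polynomial `f = c₀ + … + c_d x^d` is irreducible of degree `d` over `k`, and the assertions
are true for `a` and `f`. -/
def Exceptional (R : Type) [CommRing R] (k : Type) [Field k] [Algebra R k] (d : ℕ) :
    Set (Fin (d + 2) → R) :=
  {c | ¬ (algebraMap R k (c 0) ≠ 0 ∧ (poly k c).natDegree = d ∧ Irreducible (poly k c) ∧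
    Nothing.{v, w, y} (algebraMap R k (c 0)) (poly k c))}

/-- Density zero: for every `ε > 0` there is an ideal `I` of `R` of finite index such that `E` lies
in at most `ε #(R/I)ᴺ` residue classes modulo `I`. -/
def DensityZero {R : Type} [CommRing R] {N : ℕ} (E : Set (Fin N → R)) : Prop :=
  ∀ ε : ℝ, 0 < ε → ∃ I : Ideal R, Finite (R ⧸ I) ∧
    (Set.ncard ((fun (t : Fin N → R) i => Ideal.Quotient.mk I (t i)) '' E) : ℝ) ≤
      ε * (Nat.card (R ⧸ I) : ℝ) ^ N

/-- Let `R` be a domain of characteristic zero that is finitely generated as a ring, with fraction
field `k`; so `k` is any field finitely generated over `ℚ`.  Let `d ≥ 3`.  For all vectors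
`(a, c₀, …, c_d)` of elements of `R` outside a set of density zero, the polynomial
`f = c₀ + … + c_d x^d` is irreducible of degree `d` over `k`, and for all `D ≥ 1` such that `gcd(2, D) D`
divides `d`, all finite extensions `L` of `k` and integers `m` such that `D` does not divide `m [L : k]`,
and all `n` divisible by `D`, the smooth projective curve over `L` with the affine equation
`a^m yⁿ = f(x)` has no point over `L`, and the fundamental groups of its open subcurves over `L` and of
all smooth curves over `L` that dominate it have no sections over `G_L`. -/
theorem result (R : Type) [CommRing R] [IsDomain R] [CharZero R] [Algebra.FiniteType ℤ R]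
    (k : Type) [Field k] [Algebra R k] [IsFractionRing R k] (d : ℕ) (hd : 3 ≤ d) :
    DensityZero (Exceptional.{v, w, y} R k d) := by
  have hcz : CharZero k := charZero_of_injective_algebraMap (IsFractionRing.injective R k)
  intro ε hε
  obtain ⟨I, hI, hle⟩ := Pool.Agent.X281.SE.density_all (R := R) (k := k) d hd ε hε
  refine ⟨I, hI, le_trans ?_ hle⟩
  have hsub : (Exceptional.{v, w, y} R k d : Set (Fin (d + 2) → R)) ⊆
      {c : Fin (d + 2) → R | ¬ Pool.Agent.X281.SE.GoodC k c} := by
    intro c hc hgood
    obtain ⟨h1, h2, h3⟩ := hgood
    apply hc
    have hdeg : (poly k c).natDegree = d := Pool.Agent.TH377.Sup.pol_natDegree _ h2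
    refine ⟨h1, hdeg, Pool.Agent.X281.SE.good_irr _ _ h3, ?_⟩
    intro D hD hDd L _ _ _ m hm n hDn
    obtain ⟨k1, k2, -, k3⟩ := Pool.Agent.X281.SE.good_ext.{v, w, y} _ (poly k c) h3 D (by omega)
      hDd m hm n hDn
    refine ⟨⟨?_, ?_⟩, ?_⟩
    · rintro ⟨x, y, hxy⟩
      exact k1 x y hxy
    · rintro ⟨r, hr⟩
      exact k2 r hr
    · intro F Ω _ _ _ _ _ _ _ x y U hxy hU
      have hcl : IsAlgClosed Ω := IsAlgClosure.isAlgClosed F
      have halg : Algebra.IsAlgebraic F Ω := IsAlgClosure.isAlgebraic
      have h4 := k3 F Ω U hU x y hxy
      exact ⟨fun s => h4.false ⟨s.toHom, s.cont, s.compat⟩⟩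
  exact_mod_cast Set.ncard_le_ncard (Set.image_mono hsub) (Set.toFinite _)

end Pool.Agent.Results.MP_e66f84_ag.AllCurvesOverExtensions
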