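import Pool.Agent.X281.SE.Bin2

/-!
# 100% of the generalised Fermat curves `b xⁿ + c = a yⁿ` have no sections, over all extensions

Let `k` be any field finitely generated over `ℚ`, that is, the fraction field of a domain `R` of
characteristic zero that is finitely generated as a ring.  Let `n ≥ 3`, and for `(a, b, c)` in `R³` consider
the generalised Fermat curve `b xⁿ + c = a yⁿ`, a smooth plane curve of genus `(n - 1)(n - 2)/2`, and more
generally the curves

  `a^m y^N = b xⁿ + c`.

We prove that for all vectors `(a, b, c)` outside a set of density zero `a`, `b`, `c` are not zero and the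
following holds.

* For ALL odd divisors `D` of `n`, all finite extensions `L` of `k` and integers `m` such that `D` does not
  divide `m [L : k]`, and all `N` divisible by `D`: the curve `a^m y^N = b xⁿ + c` has no point over `L`, and
  its fundamental group over `L` has no section, also when any set of closed points of the curve is
  removed; the same is true for all smooth curves (or varieties) over `L` that dominate the curve.
* For ALL prime numbers `ℓ ∣ n` (also `ℓ = 2`), all finite extensions `L` of `k` and integers `m` such that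
  `ℓ` does not divide `m [L : k]` the same is true for all `N` divisible by `ℓ`, and the geometrically
  pro-`ℓ` fundamental group `Gal(M/F)` of the curve `a^m y^ℓ = b xⁿ + c` over `L` has no section over `G_L`;
  here `F` is the function field and `M` the maximal pro-`ℓ` extension of `L̄ F` that is unramified over
  the curve.

So 100% of the Fermat curves `b xⁿ + c = a yⁿ` over `k` satisfy the section conjecture over all these
extensions at once, without points and sections: for odd `n` over all extensions `L` with `n ∤ [L : k]`, and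
for even `n` over all `L` whose degree is odd or not divisible by the largest odd divisor of `n`.  The
coefficients `a`, `b`, `c` vary independently in `R`.  The set of the exceptional vectors has density zero
in a strong sense: for every `ε > 0` there is an ideal `I` of `R` of finite index such that they lie in at
most `ε #(R/I)³` residue classes modulo `I`.

These three-parameter families have density zero in the families of all superelliptic curves of
`MP_e66f84_ag.AllCurvesOverExtensions` and `MP_8312c9_nt.ProEllAnyExponents`, so the theorems there say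
nothing about them.

The fundamental group is described through valuations.  Let `U` be a smooth geometrically connected
curve over `k` with function field `F`, let `Ω` be an algebraic closure of `F`, and let `F_U` be the
maximal extension of `F` inside `Ω` which is unramified over the closed points of `U`, that is, over
their local rings, which are valuation rings of `F`.  Then `π₁(U) = Gal(F_U/F)`, and the map
`π₁(U) → G_k` is the restriction of automorphisms to the algebraic closure of `k` in `Ω`.

Proof.  Let `ℓ ∣ n` be a prime number.  The field `k` embeds in completions `E_v` of a number field `E` by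
Hilbert's irreducibility theorem and Newton's lemma, for all but finitely many places `v`; there are enough
places `v` whose norm is `1` modulo `ℓ` such that the sieve shows: for almost all vectors there is a discrete
valuation ring `A` of `k` with a finite residue field of characteristic prime to `n`, at which `a` is a
uniformiser or the inverse of one, `b` and `c` are units, and `-c/b` is not an `ℓ`-th power in the residue
field.  Then the irreducible factors of `b xⁿ + c` over the residue field have degrees divisible by `ℓ^s`, if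
`ℓ^s ∣ n` and `ℓ ≠ 2` or `s = 1`.  If `ℓ^s` does not divide `m [L : k]`, there is a discrete valuation ring of
`L` above `A` at which the local theorem of `MP_8312c9_nt.FactorDegrees` (for `ℓ ≠ 2`) or of
`MP_c385f6_ag.ProEllSections` (for `s = 1`) applies.
-/

open Polynomial

namespace Pool.Agent.Results.MP_e66f84_ag.GeneralisedFermatCurves

section definitions

variable (ℓ : ℕ) (k F Ω : Type) [Field k] [Field F] [Field Ω] [Algebra k F] [Algebra F Ω]
  [Algebra k Ω]

/-- The inertia group of the valuation ring `W` of `Ω`, as a subgroup of `Gal(Ω/F)`: the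
automorphisms of `Ω` over `F` that map `W` onto itself and act as the identity on its residue
field. -/
noncomputable def inertia (W : ValuationSubring Ω) : Subgroup (Ω ≃ₐ[F] Ω) :=
  (W.inertiaSubgroup F).map (W.decompositionSubgroup F).subtype

/-- `F_U`, for a set `U` of valuation rings of `F`: the elements of `Ω` fixed by the inertia groups
of all valuation rings `W` of `Ω` with `W ∩ F ∈ U`.  If `Ω` is an algebraic closure of a field `F`
of characteristic zero, this is the maximal extension of `F` in `Ω` unramified over `U`. -/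
noncomputable def unramified (U : Set (ValuationSubring F)) : IntermediateField F Ω :=
  ⨅ W : {W : ValuationSubring Ω // W.comap (algebraMap F Ω) ∈ U},
    IntermediateField.fixedField (inertia F Ω W.1)

/-- `k̄ F`, the compositum of `F` and of the algebraic closure of `k` in `Ω`. -/
noncomputable def geomField : IntermediateField F Ω :=
  IntermediateField.adjoin F (algebraicClosure k Ω : Set Ω)

/-- The algebraic extension `L` of `K` in `Ω` is unramified at all valuation rings of `Ω` that
contain `k`: every nonzero element of `L` has the same valuation as an element of `K`.  (If `K` is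
a function field of one variable over the algebraic closure of `k` and `k` has characteristic zero,
then this says that `L/K` is unramified over all points of the smooth projective curve.) -/
def Unramified {k K Ω : Type} [Field k] [Field K] [Field Ω] [Algebra k Ω] [Algebra K Ω]
    (L : IntermediateField K Ω) : Prop :=
  ∀ W : ValuationSubring Ω, (∀ c : k, algebraMap k Ω c ∈ W) → ∀ z ∈ L, z ≠ 0 →
    ∃ t : K, t ≠ 0 ∧ z / algebraMap K Ω t ∈ W ∧ (z / algebraMap K Ω t)⁻¹ ∈ W

/-- `L/K` is a finite Galois extension whose degree is a power of `ℓ`. -/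
def FiniteProEll (ℓ : ℕ) {K Ω : Type} [Field K] [Field Ω] [Algebra K Ω]
    (L : IntermediateField K Ω) : Prop :=
  FiniteDimensional K L ∧ IsGalois K L ∧ ∃ m : ℕ, Module.finrank K L = ℓ ^ m

/-- The maximal unramified pro-`ℓ` extension of `K` in `Ω`: the compositum of the finite Galois
extensions of `K` whose degree is a power of `ℓ` and which are unramified. -/
noncomputable def maxProEll (ℓ : ℕ) (k K Ω : Type) [Field k] [Field K] [Field Ω] [Algebra k Ω]
    [Algebra K Ω] : IntermediateField K Ω :=
  ⨆ L : {L : IntermediateField K Ω // FiniteProEll ℓ L ∧ Unramified (k := k) L}, L.1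

/-- `M`, the maximal unramified pro-`ℓ` extension of `k̄ F` in `Ω`, as an extension of `F`. -/
noncomputable def proEllField : IntermediateField F Ω :=
  (maxProEll ℓ k (geomField k F Ω) Ω).restrictScalars F

/-- The map `τ : M → M` acts as `σ : K → K` on the elements that the fields `K` and `M` have in
common when they are regarded as subfields of `Ω` through `i` and `j`. -/
def ActsAs {K M Ω : Type} [Field K] [Field M] [Field Ω] (i : K →+* Ω) (j : M →+* Ω) (σ : K → K)
    (τ : M → M) : Prop :=
  ∀ c z, j z = i c → j (τ z) = i (σ c)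

/-- Let `k ⊆ K ⊆ Ω` and `F ⊆ N ⊆ Ω` be fields.  A splitting of `Gal(N/F) → Gal(K/k)`: a continuous
homomorphism `s` from `Gal(K/k)` to `Gal(N/F)` such that `s(σ)` acts as `σ` on the elements of
`K ∩ N`. -/
structure Splitting (K N : Type) [Field K] [Field N] [Algebra k K] [Algebra F N] [Algebra K Ω]
    [Algebra N Ω] where
  /-- the homomorphism `Gal(K/k) → Gal(N/F)` -/
  toHom : (K ≃ₐ[k] K) →* (N ≃ₐ[F] N)
  cont : Continuous toHom
  compat : ∀ σ : K ≃ₐ[k] K, ActsAs (algebraMap K Ω) (algebraMap N Ω) σ (toHom σ)

/-- There are no sections of `Gal(N/F) → G_k`, where `G_k = Gal(k̄/k)` and `k̄` is the algebraic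
closure of `k` in `Ω`.  For `N = F_U` these are the sections of `π₁(U) → G_k`. -/
def NoSplitting (N : IntermediateField F Ω) : Prop :=
  IsEmpty (Splitting k F Ω (algebraicClosure k Ω) N)

end definitions

section curves

variable {k : Type} [Field k]

/-- The smooth projective curve with the affine equation `a yⁿ = f(x)` has no point over `k`:
neither in the affine part nor at infinity. -/
def NoPoint (n : ℕ) (a : k) (f : k[X]) : Prop :=
  (¬ ∃ x y : k, a * y ^ n = f.eval x) ∧
    ¬ ∃ r : k, a * r ^ Nat.gcd n f.natDegree = f.leadingCoeff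

/-- Let `F` be any field over `k` that contains a point `(x, y)` of the curve `a yⁿ = f(x)`, for
instance the function field of the curve, and let `Ω` be an algebraic closure of `F`.  Then for
every set `U` of valuation rings of `F` over `k` there is no section of `π₁(U) → G_k`.  If `F` is the
function field of the curve, such `U` are given by the smooth projective curve and by all its open
subcurves. -/
def NoSection (n : ℕ) (a : k) (f : k[X]) : Prop :=
  ∀ (F Ω : Type) [Field F] [Field Ω] [Algebra k F] [Algebra F Ω] [Algebra k Ω]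
    [IsScalarTower k F Ω] [IsAlgClosure F Ω] (x y : F) (U : Set (ValuationSubring F)),
    algebraMap k F a * y ^ n = aeval x f → (∀ O ∈ U, ∀ c : k, algebraMap k F c ∈ O) →
      NoSplitting k F Ω (unramified F Ω U)

/-- Let `F = k(x, y)` be the function field of the curve `a y^ℓ = f(x)`, let `Ω` be an algebraic
closure of `F`, and let `M` be the maximal unramified pro-`ℓ` extension of `k̄ F`.  For all
extensions `N ⊇ M` of `F` in `Ω`, in particular for `N = M`, there is no section of
`Gal(N/F) → G_k`. -/
def NoProEllSection (ℓ : ℕ) (a : k) (f : k[X]) : Prop :=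
  ∀ (F Ω : Type) [Field F] [Field Ω] [Algebra k F] [Algebra F Ω] [Algebra k Ω]
    [IsScalarTower k F Ω] [IsAlgClosure F Ω] (x y : F), Transcendental k x →
    algebraMap k F a * y ^ ℓ = aeval x f →
    IntermediateField.adjoin k {x, y} = (⊤ : IntermediateField k F) →
    ∀ N : IntermediateField F Ω, proEllField ℓ k F Ω ≤ N → NoSplitting k F Ω N

end curves

section families

/-- The binomial `b xⁿ + c` over `k` given by the vector `(a, b, c)` of elements of `R`. -/
noncomputable def binomial {R : Type} [CommRing R] (k : Type) [Field k] [Algebra R k] (n : ℕ)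
    (t : Fin 3 → R) : k[X] :=
  C (algebraMap R k (t 1)) * X ^ n + C (algebraMap R k (t 2))

/-- For all odd divisors `D` of `n`, all finite extensions `L` of `k` and integers `m` such that `D` does
not divide `m [L : k]`, and all `N` divisible by `D`, the curve `a^m y^N = f(x)` has neither points nor
sections over `L`. -/
def OddDivisors {k : Type} [Field k] (n : ℕ) (a : k) (f : k[X]) : Prop :=
  ∀ D : ℕ, Odd D → D ∣ n →
  ∀ (L : Type) [Field L] [Algebra k L] [FiniteDimensional k L] (m : ℤ),
    ¬ (D : ℤ) ∣ m * (Module.finrank k L : ℤ) → ∀ N : ℕ, D ∣ N →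
      NoPoint N (algebraMap k L (a ^ m)) (f.map (algebraMap k L)) ∧
      NoSection N (algebraMap k L (a ^ m)) (f.map (algebraMap k L))

/-- For all prime divisors `ℓ` of `n`, all finite extensions `L` of `k` and integers `m` such that `ℓ` does
not divide `m [L : k]`: for all `N` divisible by `ℓ` the curve `a^m y^N = f(x)` has neither points nor
sections over `L`, and the geometrically pro-`ℓ` fundamental group of the curve `a^m y^ℓ = f(x)` over `L`
has no section. -/
def PrimeDivisors {k : Type} [Field k] (n : ℕ) (a : k) (f : k[X]) : Prop :=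
  ∀ ℓ : ℕ, ℓ.Prime → ℓ ∣ n →
  ∀ (L : Type) [Field L] [Algebra k L] [FiniteDimensional k L] (m : ℤ),
    ¬ (ℓ : ℤ) ∣ m * (Module.finrank k L : ℤ) →
    (∀ N : ℕ, ℓ ∣ N →
      NoPoint N (algebraMap k L (a ^ m)) (f.map (algebraMap k L)) ∧
      NoSection N (algebraMap k L (a ^ m)) (f.map (algebraMap k L))) ∧
    NoProEllSection ℓ (algebraMap k L (a ^ m)) (f.map (algebraMap k L))

/-- The vectors `t = (a, b, c)` of elements of `R` that do not have the following property: `a`, `b`, `c`
are not zero, and the assertions are true for `a` and `f = b xⁿ + c`. -/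
def Exceptional (R : Type) [CommRing R] (k : Type) [Field k] [Algebra R k] (n : ℕ) :
    Set (Fin 3 → R) :=
  {t | ¬ ((∀ i, t i ≠ 0) ∧ OddDivisors n (algebraMap R k (t 0)) (binomial k n t) ∧
    PrimeDivisors n (algebraMap R k (t 0)) (binomial k n t))}

/-- Density zero: for every `ε > 0` there is an ideal `I` of `R` of finite index such that `E` lies
in at most `ε #(R/I)ᴺ` residue classes modulo `I`. -/
def DensityZero {R : Type} [CommRing R] {N : ℕ} (E : Set (Fin N → R)) : Prop :=
  ∀ ε : ℝ, 0 < ε → ∃ I : Ideal R, Finite (R ⧸ I) ∧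
    (Set.ncard ((fun (t : Fin N → R) i => Ideal.Quotient.mk I (t i)) '' E) : ℝ) ≤
      ε * (Nat.card (R ⧸ I) : ℝ) ^ N

end families

section proof

lemma iSup_congr_prop {α : Type} [CompleteLattice α] {P Q : α → Prop} (h : ∀ L, P L ↔ Q L) :
    (⨆ L : {L // P L}, L.1) = ⨆ L : {L // Q L}, L.1 := by
  have h1 : P = Q := funext fun L => propext (h L)
  subst h1
  rfl

lemma proEll_eq (ℓ : ℕ) (k F Ω : Type) [Field k] [Field F] [Field Ω] [Algebra k F] [Algebra F Ω]
    [Algebra k Ω] : proEllField ℓ k F Ω = Pool.Agent.Y157.PS.geomPro ℓ k F Ω := by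
  unfold proEllField Pool.Agent.Y157.PS.geomPro maxProEll Pool.Agent.Y157.PS.maxPro
  congr 1
  refine iSup_congr_prop fun L => ?_
  constructor
  · rintro ⟨⟨h1, h2, h3⟩, h4⟩
    refine ⟨⟨h1, h2, h3⟩, fun W hW z hz hz0 => ?_⟩
    obtain ⟨t, ht, h5, h6⟩ := h4 W hW z hz hz0
    exact ⟨t, ht, div_ne_zero hz0 ((_root_.map_ne_zero _).2 ht), h5, h6⟩
  · rintro ⟨⟨h1, h2, h3⟩, h4⟩
    refine ⟨⟨h1, h2, h3⟩, fun W hW z hz hz0 => ?_⟩
    obtain ⟨t, ht, -, h5, h6⟩ := h4 W hW z hz hz0
    exact ⟨t, ht, h5, h6⟩

lemma of_fine {k : Type} [Field k] (l : ℕ) (a : k) (f : k[X])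
    (h : Pool.Agent.Y157.PS.FineP l a f) (n : ℕ) (hn : l ∣ n) (hd : l ∣ f.natDegree) :
    NoPoint n a f ∧ NoSection n a f := by
  obtain ⟨-, h1, h2, h3⟩ := h
  obtain ⟨n', rfl⟩ := hn
  refine ⟨⟨?_, ?_⟩, ?_⟩
  · rintro ⟨x, y, hxy⟩
    apply h2 x (y ^ n')
    rw [← hxy, ← pow_mul, mul_comm n' l]
  · rintro ⟨r, hr⟩
    obtain ⟨e, he⟩ := Nat.dvd_gcd (Dvd.intro n' rfl : l ∣ l * n') hd
    apply h3 (r ^ e)
    rw [← hr, ← pow_mul, mul_comm e l, he]
  · intro F Ω _ _ _ _ _ _ _ x y U hxy hU
    have hcl : IsAlgClosed Ω := IsAlgClosure.isAlgClosed F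
    have halg : Algebra.IsAlgebraic F Ω := IsAlgClosure.isAlgebraic
    have h4 := h1 F Ω U hU x (y ^ n') (by rw [← hxy, ← pow_mul, mul_comm n' l])
    exact ⟨fun s => h4.false ⟨s.toHom, s.cont, s.compat⟩⟩

end proof

/-- Let `R` be a domain of characteristic zero that is finitely generated as a ring, with fraction
field `k`; so `k` is any field finitely generated over `ℚ`.  Let `n ≥ 3`.  For all vectors `(a, b, c)` of
elements of `R` outside a set of density zero `a`, `b`, `c` are not zero, and:

* for all odd divisors `D` of `n`, all finite extensions `L` of `k` and integers `m` such that `D` does not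
  divide `m [L : k]`, and all `N` divisible by `D`, the smooth projective curve over `L` with the affine
  equation `a^m y^N = b xⁿ + c` has no point over `L`, and the fundamental groups of its open subcurves
  over `L` and of all smooth curves over `L` that dominate it have no sections over `G_L`;
* for all prime divisors `ℓ` of `n`, all finite extensions `L` of `k` and integers `m` such that `ℓ` does not
  divide `m [L : k]` the same is true for all `N` divisible by `ℓ`, and the geometrically pro-`ℓ`
  fundamental group of the curve `a^m y^ℓ = b xⁿ + c` over `L` has no section. -/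
theorem result (R : Type) [CommRing R] [IsDomain R] [CharZero R] [Algebra.FiniteType ℤ R]
    (k : Type) [Field k] [Algebra R k] [IsFractionRing R k] (n : ℕ) (hn : 3 ≤ n) :
    DensityZero (Exceptional R k n) := by
  classical
  have hcz : CharZero k := charZero_of_injective_algebraMap (IsFractionRing.injective R k)
  let e : Fin 3 ≃ Fin 3 := Equiv.swap 1 2
  let E : ℕ → Set (Fin 3 → R) := fun ℓ => {t | ¬ ∃ q' : ℕ,
    Pool.Agent.X281.SEA.GoodC (Pool.Agent.X281.SE.BinC ℓ) n q' k (fun i => t (e i))}
  have hsub : Exceptional R k n ⊆ ⋃ ℓ ∈ n.primeFactors, E ℓ := by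
    intro t ht
    by_contra hno
    simp only [Set.mem_iUnion, not_exists] at hno
    have hgood : ∀ ℓ : ℕ, ℓ.Prime → ℓ ∣ n → ∃ q' : ℕ,
        Pool.Agent.X281.SEA.GoodC (Pool.Agent.X281.SE.BinC ℓ) n q' k (fun i => t (e i)) := by
      intro ℓ hℓ hℓn
      exact not_not.1 (hno ℓ (Nat.mem_primeFactors.2 ⟨hℓ, hℓn, by omega⟩))
    have hf : ∀ ℓ : ℕ, ℓ.Prime → ℓ ∣ n → ∃ q' : ℕ,
        Pool.Agent.X281.SEA.GoodDvr (Pool.Agent.X281.SE.BinC ℓ) n q' (algebraMap R k (t 0))
          ![algebraMap R k (t 2), algebraMap R k (t 1)] ∧ algebraMap R k (t 0) ≠ 0 := by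
      intro ℓ hℓ hℓn
      obtain ⟨q', h1, h2⟩ := hgood ℓ hℓ hℓn
      refine ⟨q', ?_, h1⟩
      have h3 : (fun i : Fin 2 => algebraMap R k (t (e i.succ))) =
          ![algebraMap R k (t 2), algebraMap R k (t 1)] := by
        funext i
        fin_cases i <;> rfl
      rw [← h3]
      exact h2
    have hbin : binomial k n t =
        C ((![algebraMap R k (t 2), algebraMap R k (t 1)] : Fin 2 → k) 1) * X ^ n +
        C ((![algebraMap R k (t 2), algebraMap R k (t 1)] : Fin 2 → k) 0) := rfl
    apply ht
    refine ⟨?_, ?_, ?_⟩
    · obtain ⟨ℓ, hℓ, hℓn⟩ := Nat.exists_prime_and_dvd (show n ≠ 1 by omega)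
      obtain ⟨q', ⟨A, _, _, _, _, c, ϖ, t', s, hfr, hfin, hc, hP, -⟩, h0⟩ := hf ℓ hℓ hℓn
      have hne : ∀ i : Fin 2, (![algebraMap R k (t 2), algebraMap R k (t 1)] : Fin 2 → k) i ≠ 0 := by
        intro i
        rw [← hc i]
        intro h4
        have h5 : c i = 0 := IsFractionRing.injective A k (by rw [h4, map_zero])
        obtain ⟨h6, h7, -⟩ := hP
        fin_cases i
        · exact h6 (by
            change IsLocalRing.residue A (c 0) = 0
            rw [show c 0 = 0 from h5, map_zero])
        · exact h7 (by
            change IsLocalRing.residue A (c 1) = 0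
            rw [show c 1 = 0 from h5, map_zero])
      intro i hi
      fin_cases i
      · exact h0 (by
          change algebraMap R k (t 0) = 0
          rw [show t 0 = 0 from hi, map_zero])
      · exact hne 1 (by
          change algebraMap R k (t 1) = 0
          rw [show t 1 = 0 from hi, map_zero])
      · exact hne 0 (by
          change algebraMap R k (t 2) = 0
          rw [show t 2 = 0 from hi, map_zero])
    · intro D hDo hDn L _ _ _ m hm N hDN
      obtain ⟨ℓ, s, hℓ, hs1, hs2⟩ : ∃ ℓ s : ℕ, ℓ.Prime ∧ ℓ ^ s ∣ D ∧
          ¬ ((ℓ ^ s : ℕ) : ℤ) ∣ m * (Module.finrank k L : ℤ) := by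
        by_contra hcon
        push Not at hcon
        apply hm
        rw [Int.natCast_dvd, Nat.dvd_iff_prime_pow_dvd_dvd]
        intro p j hp hj
        exact Int.natCast_dvd.1 (hcon p j hp hj)
      have hs0 : s ≠ 0 := by
        rintro rfl
        rw [pow_zero] at hs2
        exact hs2 (by simp)
      have hℓD : ℓ ∣ D := (dvd_pow_self ℓ hs0).trans hs1
      have hℓ2 : ℓ ≠ 2 := by
        rintro rfl
        exact (Nat.not_even_iff_odd.2 hDo) (even_iff_two_dvd.2 hℓD)
      obtain ⟨q', h1, -⟩ := hf ℓ hℓ (hℓD.trans hDn)
      obtain ⟨⟨k1, k2, -⟩, k3⟩ := Pool.Agent.X281.SE.bin_et (by omega) n q' dvd_rfl _ _ h1 hℓ hℓ2 s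
        (hs1.trans hDn) (L := L) m hs2 N (hs1.trans hDN)
      rw [hbin]
      refine ⟨⟨?_, ?_⟩, ?_⟩
      · rintro ⟨x, y, hxy⟩
        exact k1 x y hxy
      · rintro ⟨r, hr⟩
        exact k2 r hr
      · intro F Ω _ _ _ _ _ _ _ x y U hxy hU
        have hcl : IsAlgClosed Ω := IsAlgClosure.isAlgClosed F
        have halg : Algebra.IsAlgebraic F Ω := IsAlgClosure.isAlgebraic
        have h6 := k3 F Ω U hU x y hxy
        exact ⟨fun s => h6.false ⟨s.toHom, s.cont, s.compat⟩⟩
    · intro ℓ hℓ hℓn L _ _ _ m hm
      obtain ⟨q', h1, -⟩ := hf ℓ hℓ hℓn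
      have key := Pool.Agent.X281.SE.bin_pro hn n q' dvd_rfl _ _ h1 hℓ hℓn (L := L) m hm
      have hdeg : (binomial k n t).natDegree = n := by
        obtain ⟨A, _, _, _, _, c, ϖ, t', s, hfr, hfin, hc, hP, -⟩ := h1
        obtain ⟨-, h7, -⟩ := hP
        have h8 : (![algebraMap R k (t 2), algebraMap R k (t 1)] : Fin 2 → k) 1 ≠ 0 := by
          rw [← hc 1]
          intro h4
          have h5 : c 1 = 0 := IsFractionRing.injective A k (by rw [h4, map_zero])
          exact h7 (by
            change IsLocalRing.residue A (c 1) = 0
            rw [h5, map_zero])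
        have h9 : algebraMap R k (t 1) ≠ 0 := h8
        unfold binomial
        rw [natDegree_add_C, natDegree_C_mul_X_pow n _ h9]
      rw [hbin]
      refine ⟨fun N hN => of_fine ℓ _ _ key N hN ?_, ?_⟩
      · rw [natDegree_map, ← hbin, hdeg]
        exact hℓn
      · intro F Ω _ _ _ _ _ _ _ x y hx hxy hF N hN
        have hcl : IsAlgClosed Ω := IsAlgClosure.isAlgClosed F
        have halg : Algebra.IsAlgebraic F Ω := IsAlgClosure.isAlgebraic
        rw [proEll_eq] at hN
        exact ⟨fun s => key.1 F Ω x y hx hxy hF N hN s.toHom s.cont s.compat⟩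
  intro ε hε
  obtain ⟨I, hI, hle⟩ := Pool.Agent.X281.SEN.density_union n.primeFactors E (by
    intro ℓ hℓ ε hε
    have hp : ℓ.Prime := (Nat.mem_primeFactors.1 hℓ).1
    obtain ⟨q', -, I, hI, hle⟩ := Pool.Agent.X281.SEA.density_allM (R := R) (k := k)
      (Pool.Agent.X281.SE.BinC ℓ) (Pool.Agent.X281.SE.bin_desc ℓ) (1 / 8) (by norm_num)
      (by norm_num) 2 ℓ hp (Pool.Agent.X281.SE.bin_many ℓ hp) n (by omega) ε hε
    refine ⟨I, hI, le_trans ?_ hle⟩
    have h1 := Pool.Agent.X281.SEI.transport e.symm I
      {c : Fin (2 + 1) → R | ¬ Pool.Agent.X281.SEA.GoodC (Pool.Agent.X281.SE.BinC ℓ) n q' k c}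
      (E ℓ) (by
        intro c hc hgood
        exact hc ⟨q', hgood⟩)
    exact_mod_cast h1) ε hε
  have h2 : (((fun (t : Fin 3 → R) i => Ideal.Quotient.mk I (t i)) '' Exceptional R k n).ncard : ℝ) ≤
      (((fun (t : Fin 3 → R) i => Ideal.Quotient.mk I (t i)) ''
        ⋃ ℓ ∈ n.primeFactors, E ℓ).ncard : ℝ) := by
    exact_mod_cast Set.ncard_le_ncard (Set.image_mono hsub) (Set.toFinite _)
  exact ⟨I, hI, h2.trans hle⟩

end Pool.Agent.Results.MP_e66f84_ag.GeneralisedFermatCurves
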