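import Pool.Agent.X281.SE.Norm2

/-!
# The section conjecture for plane curves given by norm forms, over every finitely generated field

Let `k` be any field finitely generated over `ℚ`, that is, the fraction field of a domain `R` of
characteristic zero that is finitely generated as a ring.  Let `d ≥ 3`.  For a vector
`(a, c₀, …, c_d) ∈ R^(d+2)` let `E = k(η)` with a root `η` of `f = c₀ + c₁ x + … + c_d x^d`, and consider
ALL plane curves of degree `d` of the form

  `X : N_{E/k}(A₀ x₀ + A₁ x₁ + A₂ x₂) = a^m Q(x₀, x₁, x₂)ⁿ`,   `A₀, A₁, A₂ ∈ E`,

where `n | d` and `Q` is a form of degree `d/n` over `k` that does not vanish at the points of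
intersection of the `d` conjugate lines (this is part of the smoothness of `X`).  For `d = 4` and `n = 2`
the curve is a plane quartic with four conjugate bitangents, and over an algebraically closed field
every smooth plane quartic is of this form.

We prove that for all vectors outside a set of density zero `f` is irreducible of degree `d` and the
following holds for ALL `D ≥ 1` such that `gcd(2, D) D` divides `d`, all finite extensions `L` of `k` and all
integers `m` such that `D` does not divide `m [L : k]`, all `n | d` divisible by `D`, all
`A₀, A₁, A₂ ∈ E` and all `Q`: the curve `X` has no point over `L`, and the fundamental groups of its open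
subcurves over `L`, and of all smooth curves (or varieties) over `L` that dominate it, have no sections
over `G_L`.  So for almost all `a` and `E` the section conjecture holds for all these curves over `L` at
once.  For instance for 100% of the quartic extensions `E = k(η)` and numbers `a` no quartic
`N_{E/k}(A₀ x₀ + A₁ x₁ + A₂ x₂) = a Q²` has a section over an extension of `k` of odd degree.  The set of
the exceptional vectors has density zero in a strong sense: for every `ε > 0` there is an ideal `I` of
`R` of finite index such that the exceptional vectors lie in at most `ε #(R/I)^(d+2)` residue classes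
modulo `I`.

In `MP_e66f84_ag.NormCurvesAnyField` a single discrete valuation ring is given; in
`MP_c1dca2_ag.NormCurves` one-parameter families over number fields are considered.

The fundamental group is described through valuations.  Let `U` be a smooth geometrically connected
curve over `k` with function field `F`, let `Ω` be an algebraic closure of `F`, and let `F_U` be the
maximal extension of `F` inside `Ω` which is unramified over the closed points of `U`, that is, over
their local rings, which are valuation rings of `F`.  Then `π₁(U) = Gal(F_U/F)`, and the map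
`π₁(U) → G_k` is the restriction of automorphisms to the algebraic closure of `k` in `Ω`.

Proof.  As in `MP_e66f84_ag.SuperellipticFamilies` for almost all vectors there is a discrete valuation
ring of `k` with finite residue field at which `a` is a uniformiser or the inverse of one and the
reduction of `f` is irreducible of degree `d`: it comes from an embedding of `k` in a completion `L_v` of
a number field, given by Hilbert's irreducibility theorem and Newton's lemma.  Now the local theorem of
`MP_e66f84_ag.NormCurvesAnyField` applies.
-/

open Polynomial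

namespace Pool.Agent.Results.MP_e66f84_ag.NormCurvesAllCoefficients

universe u v w x y

section definitions

variable (k : Type u) (F : Type v) (Ω : Type w) [Field k] [Field F] [Field Ω] [Algebra k F]
  [Algebra F Ω] [Algebra k Ω]

/-- The inertia group of the valuation ring `W` of `Ω`, as a subgroup of `Gal(Ω/F)`: the
automorphisms of `Ω` over `F` that map `W` onto itself and act as the identity on its residue
field. -/
noncomputable def inertia (W : ValuationSubring Ω) : Subgroup (Ω ≃ₐ[F] Ω) :=
  (W.inertiaSubgroup F).map (W.decompositionSubgroup F).subtype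

/-- `F_U`, for a set `U` of valuation rings of `F`: the elements of `Ω` fixed by the inertia groups
of all valuation rings `W` of `Ω` with `W ∩ F ∈ U`.  If `Ω` is an algebraic closure of a field `F`
of characteristic zero, this is the maximal extension of `F` in `Ω` unramified over `U`. -/
noncomputable def unramified (U : Set (ValuationSubring F)) : IntermediateField F Ω :=
  ⨅ W : {W : ValuationSubring Ω // W.comap (algebraMap F Ω) ∈ U},
    IntermediateField.fixedField (inertia F Ω W.1)

/-- The map `τ : M → M` acts as `σ : K → K` on the elements that the fields `K` and `M` have in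
common when they are regarded as subfields of `Ω` through `i` and `j`. -/
def ActsAs {K M Ω : Type*} [Field K] [Field M] [Field Ω] (i : K →+* Ω) (j : M →+* Ω) (σ : K → K)
    (τ : M → M) : Prop :=
  ∀ c z, j z = i c → j (τ z) = i (σ c)

/-- Let `k ⊆ K ⊆ Ω` and `F ⊆ M ⊆ Ω` be fields.  A splitting of `Gal(M/F) → Gal(K/k)`: a continuous
homomorphism `s` from `Gal(K/k)` to `Gal(M/F)` such that `s(σ)` acts as `σ` on the elements of
`K ∩ M`. -/
structure Splitting (K M : Type*) [Field K] [Field M] [Algebra k K] [Algebra F M] [Algebra K Ω]
    [Algebra M Ω] where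
  /-- the homomorphism `Gal(K/k) → Gal(M/F)` -/
  toHom : (K ≃ₐ[k] K) →* (M ≃ₐ[F] M)
  cont : Continuous toHom
  compat : ∀ σ : K ≃ₐ[k] K, ActsAs (algebraMap K Ω) (algebraMap M Ω) σ (toHom σ)

/-- The sections of `π₁(U) = Gal(F_U/F) → G_k`: the continuous homomorphisms `s` from
`G_k = Gal(k̄/k)` to `Gal(F_U/F)`, where `k̄` is the algebraic closure of `k` in `Ω`, such that
`s(σ)` acts as `σ` on the elements of `k̄`. -/
def GaloisSection (U : Set (ValuationSubring F)) : Type w :=
  Splitting k F Ω (algebraicClosure k Ω) (unramified F Ω U)

end definitions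

section curve

variable {K : Type u} {E : Type x} [Field K] [Field E] [Algebra K E] [FiniteDimensional K E]

/-- The equation `N_{E/K}(A₀ x₀ + A₁ x₁ + A₂ x₂) = a Q(x₀, x₁, x₂)ⁿ` at a vector with entries in an
algebraically closed field `Ω` over `K`: the norm is the product over the embeddings `σ` of `E` into
`Ω` of the `σ(A₀) x₀ + σ(A₁) x₁ + σ(A₂) x₂`. -/
def OnCurve {Ω : Type*} [Field Ω] [Algebra K Ω] (A : Fin 3 → E) (a : K)
    (Q : MvPolynomial (Fin 3) K) (n : ℕ) (x : Fin 3 → Ω) : Prop :=
  ∏ σ : E →ₐ[K] Ω, ∑ j, σ (A j) * x j = algebraMap K Ω a * MvPolynomial.aeval x Q ^ n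

/-- The form `Q` does not vanish at the points of intersection of two conjugate lines
`σ(A₀) x₀ + σ(A₁) x₁ + σ(A₂) x₂ = 0`.  (In particular these lines are different.) -/
def Transversal (A : Fin 3 → E) (Q : MvPolynomial (Fin 3) K) : Prop :=
  ∀ σ τ : E →ₐ[K] AlgebraicClosure K, σ ≠ τ →
    MvPolynomial.aeval (crossProduct (fun j => σ (A j)) (fun j => τ (A j))) Q ≠ 0

/-- The curve has no point over `L`. -/
def NoPoint (L : Type y) [Field L] [Algebra K L] (A : Fin 3 → E) (a : K)
    (Q : MvPolynomial (Fin 3) K) (n : ℕ) : Prop :=
  ∀ x : Fin 3 → L, x ≠ 0 → ¬ OnCurve A a Q n fun j => algebraMap L (AlgebraicClosure L) (x j)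

/-- Let `F` be any field over `L` that contains a point of the curve, for instance the function field
of the curve over `L`, and let `Ω` be an algebraic closure of `F`.  Then for every set `U` of
valuation rings of `F` over `L` there is no section of `π₁(U) → G_L`.  If `F` is the function field of
the curve, such `U` are given by its normalisation and by all its open subcurves. -/
def NoSection (L : Type y) [Field L] [Algebra K L] (A : Fin 3 → E) (a : K)
    (Q : MvPolynomial (Fin 3) K) (n : ℕ) : Prop :=
  ∀ (F : Type v) (Ω : Type w) [Field F] [Field Ω] [Algebra L F] [Algebra F Ω] [Algebra L Ω]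
    [Algebra K Ω] [IsScalarTower L F Ω] [IsScalarTower K L Ω] [IsAlgClosure F Ω] (x : Fin 3 → F)
    (U : Set (ValuationSubring F)), x ≠ 0 → OnCurve A a Q n (fun j => algebraMap F Ω (x j)) →
      (∀ O ∈ U, ∀ c : L, algebraMap L F c ∈ O) → IsEmpty (GaloisSection L F Ω U)

end curve

/-- The polynomial `c₁ + c₂ x + … + c_{d+1} x^d` over `k`, for a vector `(c₀, …, c_{d+1})` of elements
of `R`. -/
noncomputable def poly {R : Type} [CommRing R] (k : Type) [Field k] [Algebra R k] {d : ℕ}
    (c : Fin (d + 2) → R) : k[X] :=
  ∑ i : Fin (d + 1), C (algebraMap R k (c i.succ)) * X ^ (i : ℕ)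

/-- `η` generates `E` over `K` and is a root of the irreducible polynomial `p`. -/
def GeneratedByRoot {K : Type u} {E : Type x} [Field K] [Field E] [Algebra K E]
    (p : K[X]) (η : E) : Prop :=
  Irreducible p ∧ Algebra.adjoin K {η} = ⊤ ∧ aeval η p = 0

/-- All the assertions for the polynomial `p` and the number `a`: for all `D ≥ 1` such that `gcd(2, D) D`
divides the degree of `p`, all extensions `E` of `k` generated by a root of `p`, all finite extensions `L`
of `k` and integers `m` such that `D` does not divide `m [L : k]`, all `n | deg p` divisible by `D`, all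
`A₀, A₁, A₂ ∈ E` and all forms `Q` of degree `(deg p)/n` over `k` that do not vanish at the points of
intersection of the conjugate lines, the curve `N_{E/k}(A₀ x₀ + A₁ x₁ + A₂ x₂) = a^m Qⁿ` has no point
and no section over `L`. -/
def Nothing {K : Type} [Field K] (a : K) (p : K[X]) : Prop :=
  ∀ D : ℕ, 1 ≤ D → Nat.gcd 2 D * D ∣ p.natDegree →
  ∀ (E : Type x) [Field E] [Algebra K E] [FiniteDimensional K E] (η : E), GeneratedByRoot p η →
    ∀ (L : Type y) [Field L] [Algebra K L] [FiniteDimensional K L] (m : ℤ),
    ¬ (D : ℤ) ∣ m * (Module.finrank K L : ℤ) → ∀ n q : ℕ, D ∣ n → n * q = p.natDegree →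
      ∀ (A : Fin 3 → E) (Q : MvPolynomial (Fin 3) K), Q.IsHomogeneous q → Transversal A Q →
        NoPoint L A (a ^ m) Q n ∧ NoSection.{0, v, w} L A (a ^ m) Q n

/-- The vectors `c = (a, c₀, …, c_d)` of elements of `R` that do not have the following property:
`a ≠ 0`, the polynomial `f = c₀ + … + c_d x^d` is irreducible of degree `d` over `k`, and the assertions
are true for `a` and `f`. -/
def Exceptional (R : Type) [CommRing R] (k : Type) [Field k] [Algebra R k] (d : ℕ) :
    Set (Fin (d + 2) → R) :=
  {c | ¬ (algebraMap R k (c 0) ≠ 0 ∧ (poly k c).natDegree = d ∧ Irreducible (poly k c) ∧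
    Nothing.{v, w, x, y} (algebraMap R k (c 0)) (poly k c))}

/-- Density zero: for every `ε > 0` there is an ideal `I` of `R` of finite index such that `E` lies
in at most `ε #(R/I)ᴺ` residue classes modulo `I`. -/
def DensityZero {R : Type} [CommRing R] {N : ℕ} (E : Set (Fin N → R)) : Prop :=
  ∀ ε : ℝ, 0 < ε → ∃ I : Ideal R, Finite (R ⧸ I) ∧
    (Set.ncard ((fun (t : Fin N → R) i => Ideal.Quotient.mk I (t i)) '' E) : ℝ) ≤
      ε * (Nat.card (R ⧸ I) : ℝ) ^ N

/-- Let `R` be a domain of characteristic zero that is finitely generated as a ring, with fraction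
field `k`; so `k` is any field finitely generated over `ℚ`.  Let `d ≥ 3`.  For all vectors
`(a, c₀, …, c_d)` of elements of `R` outside a set of density zero, the polynomial
`f = c₀ + … + c_d x^d` is irreducible of degree `d` over `k`, and for `E = k(η)` with a root `η` of `f`,
for all `D ≥ 1` such that `gcd(2, D) D` divides `d`, all finite extensions `L` of `k` and integers `m`
such that `D` does not divide `m [L : k]`, all `n | d` divisible by `D`, all `A₀, A₁, A₂ ∈ E` and all forms
`Q` of degree `d/n` over `k` that do not vanish at the points of intersection of the conjugate lines,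
the plane curve `N_{E/k}(A₀ x₀ + A₁ x₁ + A₂ x₂) = a^m Qⁿ` has no point over `L`, and the fundamental
groups of its open subcurves over `L` and of all smooth curves over `L` that dominate it have no
sections over `G_L`. -/
theorem result (R : Type) [CommRing R] [IsDomain R] [CharZero R] [Algebra.FiniteType ℤ R]
    (k : Type) [Field k] [Algebra R k] [IsFractionRing R k] (d : ℕ) (hd : 3 ≤ d) :
    DensityZero (Exceptional.{v, w, x, y} R k d) := by
  have hcz : CharZero k := charZero_of_injective_algebraMap (IsFractionRing.injective R k)
  intro ε hε
  obtain ⟨I, hI, hle⟩ := Pool.Agent.X281.SE.density_all (R := R) (k := k) d hd ε hε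
  refine ⟨I, hI, le_trans ?_ hle⟩
  have hsub : (Exceptional.{v, w, x, y} R k d : Set (Fin (d + 2) → R)) ⊆
      {c : Fin (d + 2) → R | ¬ Pool.Agent.X281.SE.GoodC k c} := by
    intro c hc hgood
    obtain ⟨h1, h2, h3⟩ := hgood
    apply hc
    have hdeg : (poly k c).natDegree = d := Pool.Agent.TH377.Sup.pol_natDegree _ h2
    refine ⟨h1, hdeg, Pool.Agent.X281.SE.good_irr _ _ h3, ?_⟩
    intro D hD hDd E _ _ _ η hη L _ _ _ m hm n q hDn hnq A Q hQ htr
    obtain ⟨key1, key2⟩ := Pool.Agent.X281.SE.good_norm.{v, w, x, y} _ (poly k c) h3 D (by omega)
      hDd E η hη.1 hη.2.1 hη.2.2 L m hm n q hDn hnq A Q hQ htr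
    refine ⟨fun x hx hon => key1 x hx hon, ?_⟩
    intro F Ω _ _ _ _ _ _ _ _ _ x U hx hon hU
    have h4 := key2 F Ω x U hx hon hU
    exact ⟨fun s => h4.false ⟨s.toHom, s.cont, s.compat⟩⟩
  exact_mod_cast Set.ncard_le_ncard (Set.image_mono hsub) (Set.toFinite _)

end Pool.Agent.Results.MP_e66f84_ag.NormCurvesAllCoefficients
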