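import Pool.Agent.X281.OB.InfYY

/-!
# The sections of 100% of all curves `a^m y^ℓ = ∏ f_i(x)^(e_i)` that are totally ramified at infinity are
locally the section at infinity

Let `k` be a number field, or any field finitely generated over `ℚ`, that is, the fraction field of a
domain `R` of characteristic zero that is finitely generated as a ring.  Let `d_i ≥ 2` be given for `i`
in a finite set with at least two elements.  We consider the smooth projective curves

  `C : a^m y^ℓ = ∏ f_i(x)^(e_i)`,   `f_i = c_{i,0} + c_{i,1} x + … + c_{i,d_i} x^(d_i)`,

where ALL coefficients `a`, `c_{i,j}` vary in `R`, `ℓ` is ANY prime number, and the exponents `e_i` are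
prime to `ℓ` and such that `ℓ` does NOT divide `∑ e_i d_i`.  Then `C` has exactly one point `∞` above
`x = ∞`, and this point is rational, so that the fundamental group of `C` has at least one section over
`G_k`.  The genus of `C` is `(ℓ - 1)(∑ d_i - 1)/2 ≥ 2`.  Examples are the hyperelliptic curves
`a y² = f₁(x) f₂(x)` of genus `2` with `deg f_i = 2, 3`, the Picard curves `a y³ = f₁(x) f₂(x)` of genus
`3` with quadratic `f₁`, `f₂`, and for all prime numbers `ℓ ≥ 3` and exponents `e₁`, `e₂` with
`ℓ ∤ e₁ + e₂` the curves `a y^ℓ = f₁(x)^(e₁) f₂(x)^(e₂)` with the same quadratic polynomials `f₁`, `f₂` and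
the same `a`.  By the section conjecture the sections of `π₁(C)` are given by
the rational points of `C`, and for 100% of these curves one expects that there is only one, `∞`.

**Theorem.**  For all vectors `(a, c_{i,j})` outside a set of density zero there are at least `n` prime
numbers `p` (prime to a given number `q`), and for each of them a place `A` of `k` above `p`, that is, a
discrete valuation ring of `k` with finite residue field of characteristic `p`, such that for ALL
prime numbers `ℓ ≠ p`, all exponents `e_i` prime to `ℓ` with `ℓ ∤ ∑ e_i d_i`, all finite extensions `L` of `k`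
and all integers `m` such that `ℓ` does not divide `m [L : k]` and for every `i` either `ℓ ∣ d_i` or
`[L : k] < d_i` (for instance `L = k` and `m = 1`) the following is true for a place `B` of `L` above `A`
and for every section `s` of `Gal(N/F) → G_L`; here `F = L(x, y)` is the function field of `C` over `L`,
and `N` is any extension of `F` which contains the maximal pro-`ℓ` extension `M` of `L̄ F` unramified
over `C`, for instance `N = M`, or `N = F_U` (sections of `π₁(U)` for `U = C` or an open subcurve `U`),
or `N` the algebraic closure of `F` (birational sections).  Let `D_V ⊆ G_L` be the decomposition group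
of a place `V` of `L̄` above `B`.  Then there is exactly one place of `M` above a branch point of
`x : C → ℙ¹` (a zero of one of the `f_i(x)` or a pole of `x`) whose decomposition group contains the image
of `D_V` in `Gal(M/F)` under `s`, and this place lies above the point `∞`.

So at these `n` places every section over `L` is locally, in the whole geometrically pro-`ℓ` fundamental
group, the section of the rational point `∞`, and this for all these curves (infinitely many `ℓ` and all
exponents for the same `a` and `f_i`) at the same places.  The sections are arbitrary; it is not assumed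
that they are locally geometric.  The number `n` can be chosen arbitrarily.  The set of the exceptional
vectors has density zero in a strong sense: for every `ε > 0` there is an ideal `J` of `R` of finite
index such that they lie in at most `ε #(R/J)^N` residue classes modulo `J`, `N` being the number of
coefficients.

`MP_2f3286_ag.SectionsAtInfinity` is about the curves `a^m y^ℓ = f(x)` for one irreducible polynomial `f`;
here the number of the irreducible factors and their multiplicities are arbitrary.  If `ℓ` divides
`∑ e_i d_i`, then 100% of the curves have no sections at all (`MP_8312c9_nt.ProEllAnyExponents` and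
`MP_2f3286_ag.ProEllSectionsAllPrimes`).  So the three theorems and this one describe, for 100% of the
vectors, the sections of all curves `a^m y^ℓ = ∏ f_i(x)^(e_i)` with `d_i ≥ 2`.

Proof.  Almost all vectors over `R` have `n` discrete valuation rings `A` of `k` with finite residue
fields of different characteristics, at which `a` is a uniformiser or the inverse of one, and the `f_i`
are integral with reductions that are irreducible of degree `d_i` and coprime.  As `ℓ` does not divide
`[L : k]`, there is a discrete valuation ring `B` of `L` above `A` whose ramification index and residue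
degree are not divisible by `ℓ`.  So the valuation of `a^m` is not divisible by `ℓ`, and the reduction of
`f_i` has no root in the residue field of `B`.  With `u = 1/x`, `D = ∑ e_i d_i` and a suitable `w` the
equation becomes `a^m w^ℓ = u^(D (ℓ - 1)) ∏ h_i(u)^(e_i)` for the reversed polynomials `h_i`.  If `ℓ = 2`,
one may take all `e_i = 1`, the number of the branch points is even, and the theorem on sections of
geometrically pro-`ℓ` fundamental groups of the curves `t w^ℓ = h(u)` over local fields can be used
(project PS of helper157, used for `MP_2f3286_ag.OnePointLocally` and `MP_c385f6_ag.ProEllSections`).  Let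
`ℓ ≥ 3`, and let `E` be the extension of `L` generated by the branch points `b`.  The section acts on the
elements `((u - b)/(u - b'))^(1/ℓ)` of `M` through the Kummer cocycles of elements of `E`.  For any three
branch points `M` contains the maximal unramified pro-`ℓ` extension of the function field of the Fermat
curve given by two such quotients, and an inertia element cannot act on its coordinates with three
different characters; so the cocycle of `((u - b)/(u - b'))^(1/ℓ)` is unramified for some `b ≠ b'`.  A
twist `T` of this element by a root of a unit is fixed by the section, over `E(T)` the number of the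
branch points is `(∑ d_i - 1) ℓ`, and the theorem on sections of geometrically pro-`ℓ` fundamental groups
of coverings with a number of branch points divisible by `ℓ` gives exactly one place of `M` above the
branch points that is fixed by the restriction of the section to the decomposition group of `E`.  By
uniqueness it is fixed by the section on `D_V`, and the branch point below is fixed by `D_V`; its
reduction is rational over the residue field, so that it is `u = 0`.
-/

open Polynomial

namespace Pool.Agent.Results.MP_e66f84_ag.SectionsAtInfinityAllTypes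

section definitions

variable (ℓ : ℕ) (k F Ω : Type) [Field k] [Field F] [Field Ω] [Algebra k F] [Algebra F Ω]
  [Algebra k Ω]

/-- The inertia group of the valuation ring `W` of `Ω`, as a subgroup of `Gal(Ω/F)`: the
automorphisms of `Ω` over `F` that map `W` onto itself and act as the identity on its residue
field. -/
noncomputable def inertia (W : ValuationSubring Ω) : Subgroup (Ω ≃ₐ[F] Ω) :=
  (W.inertiaSubgroup F).map (W.decompositionSubgroup F).subtype

/-- `F_U`, for a set `U` of valuation rings of `F`: the elements of `Ω` fixed by the inertia groups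
of all valuation rings `W` of `Ω` with `W ∩ F ∈ U`.  If `Ω` is an algebraic closure of a field `F`
of characteristic zero, this is the maximal extension of `F` in `Ω` unramified over `U`. -/
noncomputable def unramified (U : Set (ValuationSubring F)) : IntermediateField F Ω :=
  ⨅ W : {W : ValuationSubring Ω // W.comap (algebraMap F Ω) ∈ U},
    IntermediateField.fixedField (inertia F Ω W.1)

/-- `k̄ F`, the compositum of `F` and of the algebraic closure of `k` in `Ω`. -/
noncomputable def geomField : IntermediateField F Ω :=
  IntermediateField.adjoin F (algebraicClosure k Ω : Set Ω)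

/-- The algebraic extension `L` of `K` in `Ω` is unramified at all valuation rings of `Ω` that
contain `k`: every nonzero element of `L` has the same valuation as an element of `K`.  (If `K` is
a function field of one variable over the algebraic closure of `k` and `k` has characteristic zero,
then this says that `L/K` is unramified over all points of the smooth projective curve.) -/
def Unramified {k K Ω : Type} [Field k] [Field K] [Field Ω] [Algebra k Ω] [Algebra K Ω]
    (L : IntermediateField K Ω) : Prop :=
  ∀ W : ValuationSubring Ω, (∀ c : k, algebraMap k Ω c ∈ W) → ∀ z ∈ L, z ≠ 0 →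
    ∃ t : K, t ≠ 0 ∧ z / algebraMap K Ω t ∈ W ∧ (z / algebraMap K Ω t)⁻¹ ∈ W

/-- `L/K` is a finite Galois extension whose degree is a power of `ℓ`. -/
def FiniteProEll (ℓ : ℕ) {K Ω : Type} [Field K] [Field Ω] [Algebra K Ω]
    (L : IntermediateField K Ω) : Prop :=
  FiniteDimensional K L ∧ IsGalois K L ∧ ∃ m : ℕ, Module.finrank K L = ℓ ^ m

/-- The maximal unramified pro-`ℓ` extension of `K` in `Ω`: the compositum of the finite Galois
extensions of `K` whose degree is a power of `ℓ` and which are unramified. -/
noncomputable def maxProEll (ℓ : ℕ) (k K Ω : Type) [Field k] [Field K] [Field Ω] [Algebra k Ω]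
    [Algebra K Ω] : IntermediateField K Ω :=
  ⨆ L : {L : IntermediateField K Ω // FiniteProEll ℓ L ∧ Unramified (k := k) L}, L.1

/-- `M`, the maximal unramified pro-`ℓ` extension of `k̄ F` in `Ω`, as an extension of `F`. -/
noncomputable def proEllField : IntermediateField F Ω :=
  (maxProEll ℓ k (geomField k F Ω) Ω).restrictScalars F

/-- The map `τ : M → M` acts as `σ : K → K` on the elements that the fields `K` and `M` have in
common when they are regarded as subfields of `Ω` through `i` and `j`. -/
def ActsAs {K M Ω : Type} [Field K] [Field M] [Field Ω] (i : K →+* Ω) (j : M →+* Ω) (σ : K → K)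
    (τ : M → M) : Prop :=
  ∀ c z, j z = i c → j (τ z) = i (σ c)

/-- Let `k ⊆ K ⊆ Ω` and `F ⊆ N ⊆ Ω` be fields.  A splitting of `Gal(N/F) → Gal(K/k)`: a continuous
homomorphism `s` from `Gal(K/k)` to `Gal(N/F)` such that `s(σ)` acts as `σ` on the elements of
`K ∩ N`. -/
structure Splitting (K N : Type) [Field K] [Field N] [Algebra k K] [Algebra F N] [Algebra K Ω]
    [Algebra N Ω] where
  /-- the homomorphism `Gal(K/k) → Gal(N/F)` -/
  toHom : (K ≃ₐ[k] K) →* (N ≃ₐ[F] N)
  cont : Continuous toHom
  compat : ∀ σ : K ≃ₐ[k] K, ActsAs (algebraMap K Ω) (algebraMap N Ω) σ (toHom σ)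

end definitions

section attached

variable {k F N L Ω : Type} [Field k] [Field F] [Field N] [Field L] [Field Ω] [Algebra k F]
  [Algebra F Ω] [Algebra k Ω] [Algebra k L] [Algebra F N] [Algebra L Ω] [Algebra N Ω]

/-- The valuation ring `W` of `N` contains `k`, and the function `t ∈ F` is in its maximal ideal.  For
`t = 1/x` this says that `W` lies above the point of the curve at infinity. -/
def ZeroAt (k : Type) {F N : Type} [Field k] [Field F] [Field N] [Algebra k F] [Algebra F N]
    (W : ValuationSubring N) (t : F) : Prop :=
  (∀ c : k, algebraMap F N (algebraMap k F c) ∈ W) ∧ algebraMap F N t ∈ W.nonunits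

/-- Let `D_V` be the decomposition group of the valuation ring `V` of `L` in `Gal(L/k)`.  The image of
`D_V` under `s : Gal(L/k) → Gal(N/F)` in `Gal(M/F)`, where `M ⊆ N ⊆ Ω`, is contained in the
decomposition group of the valuation ring `W ∩ M`. -/
def LocallyIn (V : ValuationSubring L) (s : Splitting k F Ω L N) (M : IntermediateField F Ω)
    (W : ValuationSubring N) : Prop :=
  ∀ σ : L ≃ₐ[k] L, (∀ c : L, σ c ∈ V ↔ c ∈ V) →
    ∀ z : N, algebraMap N Ω z ∈ M → (s.toHom σ z ∈ W ↔ z ∈ W)

/-- The restriction of `s` to `D_V` is the section of the point at infinity, and of no other branch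
point of the curve `a y^ℓ = f(x)`: there is a valuation ring `W` of `N` above the point at infinity such
that the image of `D_V` in `Gal(M/F)` lies in the decomposition group of `W ∩ M`, and `W ∩ M` is the only
valuation ring of `M` above a branch point (a zero of `1/x` or of `f(x)`) with this property. -/
def LocallyAtInfinity (V : ValuationSubring L) (f : k[X]) (x : F) (s : Splitting k F Ω L N)
    (M : IntermediateField F Ω) : Prop :=
  ∃ W : ValuationSubring N, ZeroAt k W x⁻¹ ∧ LocallyIn V s M W ∧
    ∀ W' : ValuationSubring N, ZeroAt k W' x⁻¹ ∨ ZeroAt k W' (aeval x f) →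
      LocallyIn V s M W' → ∀ z : N, algebraMap N Ω z ∈ M → (z ∈ W' ↔ z ∈ W)

end attached

/-- Let `F = k(x, y)` be the function field of the curve `a y^ℓ = f(x)` over `k`, let `Ω` be an algebraic
closure of `F`, and let `M` be the maximal unramified pro-`ℓ` extension of `k̄ F`.  Then `M ⊆ F_U` for
all sets `U` of valuation rings of `F` over `k`, and for all extensions `N ⊇ M` of `F` in `Ω`, in
particular for `N = M` and for `N = F_U`, and all valuation rings `V` of `k̄` above `B` the restriction
to the decomposition group of `V` of every section of `Gal(N/F) → G_k` is the section of the point at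
infinity. -/
def AllSectionsAtInfinity (ℓ : ℕ) {k : Type} [Field k] (B : ValuationSubring k) (a : k) (f : k[X]) :
    Prop :=
  ∀ (F Ω : Type) [Field F] [Field Ω] [Algebra k F] [Algebra F Ω] [Algebra k Ω]
    [IsScalarTower k F Ω] [IsAlgClosure F Ω] (x y : F), Transcendental k x →
    algebraMap k F a * y ^ ℓ = aeval x f →
    IntermediateField.adjoin k {x, y} = (⊤ : IntermediateField k F) →
    (∀ U : Set (ValuationSubring F), (∀ O ∈ U, ∀ c : k, algebraMap k F c ∈ O) →
      proEllField ℓ k F Ω ≤ unramified F Ω U) ∧
    ∀ N : IntermediateField F Ω, proEllField ℓ k F Ω ≤ N →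
      ∀ (s : Splitting k F Ω (algebraicClosure k Ω) N) (V : ValuationSubring (algebraicClosure k Ω)),
        V.comap (algebraMap k (algebraicClosure k Ω)) = B →
        LocallyAtInfinity V f x s (proEllField ℓ k F Ω)

/-- `B` is a place of `k` above the prime number `p`: a discrete valuation ring with finite residue field
of characteristic `p`. -/
def IsPlace {k : Type} [Field k] (p : ℕ) (B : ValuationSubring k) : Prop :=
  IsDiscreteValuationRing B ∧ Finite (IsLocalRing.ResidueField B) ∧ (p : k) ∈ B.nonunits

/-- There are at least `n` prime numbers `p ∤ q` such that for a place `A` of `k` above `p` the following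
is true: for all prime numbers `ℓ ≠ p`, all exponents `e_i` prime to `ℓ` such that `ℓ` does not divide
the degree of `∏ f_i^(e_i)`, all finite extensions `L` of `k` and integers `m` such that `ℓ` does not divide
`m [L : k]` and for every `i` either `ℓ` divides the degree of `f_i` or `[L : k]` is smaller than it there
is a place `B` of `L` above `A` at which all sections for the curve `a^m y^ℓ = ∏ f_i(x)^(e_i)` over `L` are
the section at infinity. -/
def AtManyPlaces (n q : ℕ) {k : Type} [Field k] {I : Type} [Fintype I] (a : k) (f : I → k[X]) : Prop :=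
  ∃ P : Finset ℕ, n ≤ P.card ∧ ∀ p ∈ P, p.Prime ∧ ¬ p ∣ q ∧
    ∃ A : ValuationSubring k, IsPlace p A ∧ ∀ ℓ : ℕ, ℓ.Prime → ℓ ≠ p →
      ∀ e : I → ℕ, (∀ i, ¬ ℓ ∣ e i) → ¬ ℓ ∣ ∑ i, e i * (f i).natDegree →
      ∀ (L : Type) [Field L] [Algebra k L] [FiniteDimensional k L] (m : ℤ),
        ¬ (ℓ : ℤ) ∣ m * (Module.finrank k L : ℤ) →
        (∀ i, ℓ ∣ (f i).natDegree ∨ Module.finrank k L < (f i).natDegree) →
        ∃ B : ValuationSubring L, IsPlace p B ∧ B.comap (algebraMap k L) = A ∧
          AllSectionsAtInfinity ℓ B (algebraMap k L (a ^ m))
            ((∏ i, f i ^ e i).map (algebraMap k L))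

section families

/-- The index set of the vectors of coefficients: `none` is the index of the coefficient `a`, and
`some ⟨i, j⟩` with `0 ≤ j ≤ d i` is the index of the coefficient of `x ^ j` in `f_i`. -/
abbrev Index {I : Type} (d : I → ℕ) : Type := Option (Σ i, Fin (d i + 1))

/-- The coefficient `a` of the vector `c`. -/
def coeffA {R : Type} [CommRing R] (k : Type) [Field k] [Algebra R k] {I : Type} {d : I → ℕ}
    (c : Index d → R) : k :=
  algebraMap R k (c none)

/-- The polynomial `f_i` with the coefficients given by the vector `c`. -/
noncomputable def poly {R : Type} [CommRing R] (k : Type) [Field k] [Algebra R k] {I : Type}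
    {d : I → ℕ} (c : Index d → R) (i : I) : k[X] :=
  ∑ j : Fin (d i + 1), C (algebraMap R k (c (some ⟨i, j⟩))) * X ^ (j : ℕ)

/-- The vectors `c = (a, c_{i,j})` of elements of `R` that do not have the following property: `a ≠ 0`,
the polynomials `f_i` are irreducible of degree `d_i` over `k`, `∏ f_i` is separable, and all sections for
the curves given by `a` and the `f_i` are the section at infinity at `n` places prime to `q`. -/
def Exceptional (R : Type) [CommRing R] (k : Type) [Field k] [Algebra R k] {I : Type} [Fintype I]
    (d : I → ℕ) (n q : ℕ) : Set (Index d → R) :=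
  {c | ¬ (coeffA k c ≠ 0 ∧ (∀ i, (poly k c i).natDegree = d i ∧ Irreducible (poly k c i)) ∧
    (∏ i, poly k c i).Separable ∧ AtManyPlaces n q (coeffA k c) (poly k c))}

/-- Density zero: for every `ε > 0` there is an ideal `J` of `R` of finite index such that `E` lies in at
most `ε #(R/J)ᴺ` residue classes modulo `J`, where `N` is the number of the coordinates of the
vectors. -/
def DensityZero {R : Type} [CommRing R] {ι : Type} [Fintype ι] (E : Set (ι → R)) : Prop :=
  ∀ ε : ℝ, 0 < ε → ∃ J : Ideal R, Finite (R ⧸ J) ∧
    (Set.ncard ((fun (t : ι → R) i => Ideal.Quotient.mk J (t i)) '' E) : ℝ) ≤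
      ε * (Nat.card (R ⧸ J) : ℝ) ^ Fintype.card ι

end families

section proof

lemma iSup_congr_prop {α : Type} [CompleteLattice α] {P Q : α → Prop} (h : ∀ L, P L ↔ Q L) :
    (⨆ L : {L // P L}, L.1) = ⨆ L : {L // Q L}, L.1 := by
  have h1 : P = Q := funext fun L => propext (h L)
  subst h1
  rfl

lemma proEll_eq (ℓ : ℕ) (k F Ω : Type) [Field k] [Field F] [Field Ω] [Algebra k F] [Algebra F Ω]
    [Algebra k Ω] : proEllField ℓ k F Ω = Pool.Agent.Y157.PS.geomPro ℓ k F Ω := by
  unfold proEllField Pool.Agent.Y157.PS.geomPro maxProEll Pool.Agent.Y157.PS.maxPro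
  congr 1
  refine iSup_congr_prop fun L => ?_
  constructor
  · rintro ⟨⟨h1, h2, h3⟩, h4⟩
    refine ⟨⟨h1, h2, h3⟩, fun W hW z hz hz0 => ?_⟩
    obtain ⟨t, ht, h5, h6⟩ := h4 W hW z hz hz0
    exact ⟨t, ht, div_ne_zero hz0 ((_root_.map_ne_zero _).2 ht), h5, h6⟩
  · rintro ⟨⟨h1, h2, h3⟩, h4⟩
    refine ⟨⟨h1, h2, h3⟩, fun W hW z hz hz0 => ?_⟩
    obtain ⟨t, ht, -, h5, h6⟩ := h4 W hW z hz hz0
    exact ⟨t, ht, h5, h6⟩

lemma all_of {ℓ : ℕ} (hℓ : ℓ.Prime) {k : Type} [Field k] [CharZero k] (B : ValuationSubring k)
    (a : k) (ha : a ≠ 0) (f : k[X]) (h : Pool.Agent.X281.SE.AtInf ℓ B a f) :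
    AllSectionsAtInfinity ℓ B a f := by
  intro F Ω _ _ _ _ _ _ _ x y hx hxy hF
  have hfact : Fact ℓ.Prime := ⟨hℓ⟩
  have hcl : IsAlgClosed Ω := IsAlgClosure.isAlgClosed F
  have halg : Algebra.IsAlgebraic F Ω := IsAlgClosure.isAlgebraic
  rw [proEll_eq]
  refine ⟨fun U hU => ?_, fun N hN s V hV => ?_⟩
  · exact (Pool.Agent.Y157.PS.a_ind ℓ k F Ω x hx
      (Pool.Agent.Y157.PS.alg_of_eqn hℓ.pos f a ha x y hxy hF) U hU).1
  · obtain ⟨W, ⟨h1, h2⟩, h3, h4⟩ := h F Ω x y hx hxy hF N hN s.toHom s.cont s.compat V hV
    refine ⟨W, ⟨h1, h2⟩, fun σ hσ z hz => h3 σ hσ z hz, fun W' hW' hst z hz => ?_⟩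
    refine h4 W' ?_ ?_ (fun σ hσ z hz => hst σ hσ z hz) z hz
    · rcases hW' with hW' | hW'
      · exact hW'.1
      · exact hW'.1
    · exact hW'.imp (fun h => h.2) fun h => h.2

end proof

/-- Let `R` be a domain of characteristic zero that is finitely generated as a ring, with fraction
field `k`, for instance the ring of integers of a number field.  Let `d_i ≥ 2` for `i` in a finite set with
at least two elements, and let `n ≥ 1` and `q ≥ 1` be integers.  For all vectors `(a, c_{i,j})`,
`0 ≤ j ≤ d_i`, of elements of `R` outside a set of density zero, `a ≠ 0`, the polynomials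
`f_i = c_{i,0} + … + c_{i,d_i} x^(d_i)` are irreducible of degree `d_i` over `k`, `∏ f_i` is separable, and
there are at least `n` prime numbers `p ∤ q`, and for each of them a place `A` of `k` above `p`, with the
following property: for ALL prime numbers `ℓ ≠ p`, all exponents `e_i` prime to `ℓ` such that `ℓ`
does not divide `∑ e_i d_i`, all finite extensions `L` of `k` and integers `m` such that `ℓ` does not divide
`m [L : k]` and for every `i` either `ℓ ∣ d_i` or `[L : k] < d_i` there is a place `B` of `L` above `A` such
that every section of the geometrically pro-`ℓ` fundamental group of the curve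
`a^m y^ℓ = ∏ f_i(x)^(e_i)` over `L`, of the fundamental group of the curve or of an open subcurve, or of the
absolute Galois group of the function field, is at the place `B` the section of the rational point at
infinity in the whole geometrically pro-`ℓ` fundamental group. -/
theorem result (R : Type) [CommRing R] [IsDomain R] [CharZero R] [Algebra.FiniteType ℤ R]
    (k : Type) [Field k] [Algebra R k] [IsFractionRing R k] (I : Type) [Fintype I]
    (hI : 2 ≤ Fintype.card I) (d : I → ℕ) (hd : ∀ i, 2 ≤ d i) (n q : ℕ) (hn : 1 ≤ n) (hq : q ≠ 0) :
    DensityZero (Exceptional R k d n q) := by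
  classical
  have hcz : CharZero k := charZero_of_injective_algebraMap (IsFractionRing.injective R k)
  have hd2 : 2 ≤ ∑ i, d i := by
    have h1 : ∑ _i : I, 2 ≤ ∑ i, d i := Finset.sum_le_sum fun i _ => hd i
    rw [Finset.sum_const, Finset.card_univ, smul_eq_mul] at h1
    omega
  intro ε hε
  obtain ⟨Q, hQ1, hQ2, J, hJ, hle⟩ := Pool.Agent.X281.SE.typ_density (R := R) (k := k) d
    (fun i => (hd i).trans' one_le_two) n q hq ε hε
  refine ⟨J, hJ, le_trans ?_ hle⟩
  have hsub : (Exceptional R k d n q : Set (Index d → R)) ⊆
      {c | ¬ ∀ j, Pool.Agent.X281.SEI.GoodV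
        (fun κ _ c => Pool.Agent.X281.SE.TypC d κ c) (Q j).1 (Q j).2 k c} := by
    intro c hc hgood
    obtain ⟨h1, h2⟩ := hgood ⟨0, hn⟩
    apply hc
    obtain ⟨h3, h4, -⟩ := Pool.Agent.X281.SE.typ_ext.{0, 0, 0} d _ _ _ _ h2
    have hdeg : ∀ i, (poly k c i).natDegree = d i := fun i => (h3 i).2
    refine ⟨h1, fun i => ⟨(h3 i).2, (h3 i).1⟩, h4, ?_⟩
    have key := fun j => Pool.Agent.X281.SE.typ_infAll d hd2 (Q j).1 (Q j).2 _ _ (hgood j).2
    choose p A hp hpq' hpq hA hext using key
    have hinj : Function.Injective p := by
      intro i j hij
      rcases lt_trichotomy i j with h5 | h5 | h5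
      · exfalso
        apply hpq j
        rw [← hij]
        exact (hpq' i).trans (hQ2 i j h5)
      · exact h5
      · exfalso
        apply hpq i
        rw [hij]
        exact (hpq' j).trans (hQ2 j i h5)
    refine ⟨Finset.univ.image p, ?_, ?_⟩
    · rw [Finset.card_image_of_injective _ hinj, Finset.card_univ, Fintype.card_fin]
    · intro r hr
      obtain ⟨j, -, rfl⟩ := Finset.mem_image.1 hr
      refine ⟨hp j, fun h5 => hpq j (h5.trans (hQ1 j)), A j,
        ⟨(hA j).dvr, (hA j).fin, (hA j).mem⟩, ?_⟩
      intro ℓ hℓ hℓp e he hsume L _ _ _ m hm hL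
      rw [Finset.sum_congr rfl fun i _ => by rw [hdeg i]] at hsume
      obtain ⟨B, hB1, hB2, hB3⟩ := hext j ℓ hℓ hℓp e he hsume L m hm
        (fun i => by have := hL i; rwa [hdeg] at this)
      have hczL : CharZero L := charZero_of_injective_algebraMap (algebraMap k L).injective
      refine ⟨B, ⟨hB1.dvr, hB1.fin, hB1.mem⟩, hB2, all_of hℓ B _ ?_ _ hB3⟩
      rw [_root_.map_ne_zero]
      exact zpow_ne_zero _ h1
  exact_mod_cast Set.ncard_le_ncard (Set.image_mono hsub) (Set.toFinite _)

end Pool.Agent.Results.MP_e66f84_ag.SectionsAtInfinityAllTypes
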